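import Pool.Agent.Lib.helper10.NPPred

namespace Pool.Agent.Results.MP_cb63a5_lc.NPHard

open Pool.Agent.Cx

/-- `M` is a set of pairwise disjoint edges of `G` -/
def IsMatch {V : Type} (G : SimpleGraph V) (M : Finset (Sym2 V)) : Prop :=
  (∀ e ∈ M, e ∈ G.edgeSet) ∧ ∀ e ∈ M, ∀ f ∈ M, ∀ v, v ∈ e → v ∈ f → e = f

open Classical in
/-- `G` has a maximum matching `M` and an even cycle `c 0, ..., c (k-1)` of length `k ≤ L` half of
whose edges lie in `M` -/
def HasAlt {V : Type} (G : SimpleGraph V) (L : ℕ) : Prop :=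
  ∃ M : Finset (Sym2 V), IsMatch G M ∧ (∀ M', IsMatch G M' → M'.card ≤ M.card) ∧
    ∃ (k : ℕ) (c : ℕ → V), 3 ≤ k ∧ k ≤ L ∧ Even k ∧ (∀ i < k, ∀ j < k, c i = c j → i = j) ∧
      (∀ i < k, G.Adj (c i) (c ((i + 1) % k))) ∧
      2 * ((Finset.range k).filter fun i => s(c i, c ((i + 1) % k)) ∈ M).card = k

/-- the yes-instances of SAC -/
def SAC (I : List (List Bool) × ℕ) : Prop :=
  IsGraph I.1 ∧ 1 ≤ I.2 ∧ I.2 ≤ I.1.length ∧ HasAlt (graphOf I.1) I.2

/-! ### general facts -/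

section general
variable {V W : Type} {G : SimpleGraph V} {H : SimpleGraph W}

open Classical in
lemma IsMatch.map (e : G ≃g H) {M : Finset (Sym2 V)} (h : IsMatch G M) :
    IsMatch H (M.image (Sym2.map e)) ∧ (M.image (Sym2.map e)).card = M.card := by
  refine ⟨⟨fun x hx => ?_, fun x hx y hy v h1 h2 => ?_⟩,
    Finset.card_image_of_injective _ (Sym2.map.injective e.injective)⟩
  · obtain ⟨x, hx', rfl⟩ := Finset.mem_image.1 hx
    exact e.toHom.map_mem_edgeSet (h.1 x hx')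
  · obtain ⟨x, hx', rfl⟩ := Finset.mem_image.1 hx
    obtain ⟨y, hy', rfl⟩ := Finset.mem_image.1 hy
    obtain ⟨a, ha, rfl⟩ := Sym2.mem_map.1 h1
    obtain ⟨b, hb, e'⟩ := Sym2.mem_map.1 h2
    rw [e.injective e'] at hb
    rw [h.2 x hx' y hy' a ha hb]

lemma HasAlt.map (e : G ≃g H) {L : ℕ} (h : HasAlt G L) : HasAlt H L := by
  classical
  obtain ⟨M, h1, h2, k, c, a1, a2, a3, a4, a5, a6⟩ := h
  refine ⟨_, (h1.map e).1, fun M' h' => ?_, k, fun i => e (c i), a1, a2, a3,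
    fun i hi j hj h => a4 i hi j hj (e.injective h), fun i hi => e.map_rel_iff.2 (a5 i hi), ?_⟩
  · rw [(h1.map e).2, ← (h'.map e.symm).2]; exact h2 _ (h'.map e.symm).1
  · refine Eq.trans ?_ a6
    congr 2
    refine Finset.filter_congr fun i _ => ?_
    exact (Sym2.map.injective e.injective).mem_finset_image (a := s(c i, c ((i + 1) % k)))

open Classical in
lemma IsMatch.card_le [Fintype V] {M : Finset (Sym2 V)} (h : IsMatch G M) (A : V → Prop)
    (hA : ∀ x y, G.Adj x y → A x ∨ A y) :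
    M.card ≤ (Finset.univ.filter fun x => A x ∧ ∃ e ∈ M, x ∈ e).card := by
  have : ∀ e : M, ∃ x, A x ∧ x ∈ e.1 := by
    rintro ⟨e, he⟩
    have := h.1 e he
    induction e using Sym2.ind with
    | _ x y => rcases hA x y this with h | h
               · exact ⟨x, h, by simp⟩
               · exact ⟨y, h, by simp⟩
  choose g hg using this
  rw [← Finset.card_attach]
  refine Finset.card_le_card_of_injOn g (fun e _ => ?_) (fun e _ f _ e' => ?_)
  · simpa using ⟨(hg e).1, e.1, e.2, (hg e).2⟩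
  · exact Subtype.ext (h.2 _ e.2 _ f.2 _ (hg e).2 (e' ▸ (hg f).2))

open Classical in
lemma sat_match [Fintype V] (A : V → Prop) (hA : ∀ x y, G.Adj x y → (A x ↔ ¬ A y)) (μ : V → V)
    (hμ : ∀ x, A x → G.Adj x (μ x)) (inj : ∀ x y, A x → A y → μ x = μ y → x = y) :
    IsMatch G ((Finset.univ.filter A).image fun x => s(x, μ x)) ∧
      ((Finset.univ.filter A).image fun x => s(x, μ x)).card = (Finset.univ.filter A).card := by
  have h0 : ∀ x, A x → ¬ A (μ x) := fun x hx => (hA _ _ (hμ x hx)).1 hx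
  refine ⟨⟨fun e he => ?_, fun e he f hf v h1 h2 => ?_⟩, Finset.card_image_of_injOn ?_⟩
  · obtain ⟨x, hx, rfl⟩ := Finset.mem_image.1 he
    exact hμ x (by simpa using hx)
  · obtain ⟨x, hx, rfl⟩ := Finset.mem_image.1 he
    obtain ⟨y, hy, rfl⟩ := Finset.mem_image.1 hf
    simp only [Finset.mem_filter, Finset.mem_univ, true_and, Sym2.mem_iff] at *
    rcases h1 with rfl | rfl <;> rcases h2 with h | h
    · rw [h]
    · exact absurd (h ▸ hx) (h0 y hy)
    · exact absurd (h ▸ hy) (h0 x hx)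
    · rw [inj x y hx hy h]
  · intro x hx y hy e
    simp only [Finset.coe_filter, Finset.mem_univ, true_and, Set.mem_ofPred_eq, Sym2.eq_iff] at *
    rcases e with e | e
    · exact e.1
    · exact absurd (e.1 ▸ hx) (h0 y hy)

lemma succ_mod {j k : ℕ} (h : j < k) : (j + 1) % k = if j + 1 = k then 0 else j + 1 := by
  split_ifs with h'
  · simp [h']
  · exact Nat.mod_eq_of_lt (by omega)

lemma alt_intro [Fintype V] (A : V → Prop) (hA : ∀ x y, G.Adj x y → (A x ↔ ¬ A y)) (μ : V → V)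
    (hμ : ∀ x, A x → G.Adj x (μ x)) (inj : ∀ x y, A x → A y → μ x = μ y → x = y) (n L : ℕ)
    (c : ℕ → V) (h2 : 2 ≤ n) (hL : 2 * n ≤ L) (hc : ∀ i < 2 * n, ∀ j < 2 * n, c i = c j → i = j)
    (h0 : ∀ i < 2 * n, i % 2 = 0 → A (c i) ∧ μ (c i) = c (i + 1))
    (h1 : ∀ i < 2 * n, i % 2 = 1 → G.Adj (c i) (c ((i + 1) % (2 * n)))) : HasAlt G L := by
  classical
  obtain ⟨m1, m2⟩ := sat_match A hA μ hμ inj
  refine ⟨_, m1, fun M' h' => ?_, 2 * n, c, by omega, hL, by simp, hc, fun i hi => ?_, ?_⟩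
  · rw [m2]
    refine (h'.card_le A fun x y h => ?_).trans (Finset.card_le_card fun x hx => ?_)
    · have := hA x y h; tauto
    · simp only [Finset.mem_filter, Finset.mem_univ, true_and] at *; exact hx.1
  · rcases Nat.mod_two_eq_zero_or_one i with h | h
    · rw [Nat.mod_eq_of_lt (by omega), ← (h0 i hi h).2]; exact hμ _ (h0 i hi h).1
    · exact h1 i hi h
  · congr 1
    rw [show n = ((Finset.range n).image (2 * ·)).card by
      rw [Finset.card_image_of_injective _ (fun a b h => by simpa using h)]; simp]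
    congr 1
    ext i
    simp only [Finset.mem_filter, Finset.mem_range, Finset.mem_image, Finset.mem_univ, true_and,
      Finset.card_range, Finset.card_image_of_injective _
        (show Function.Injective (2 * · : ℕ → ℕ) from fun a b h => by simpa using h)]
    constructor
    · rintro ⟨hi, x, hx, e⟩
      by_contra hh
      have ho : i % 2 = 1 := by
        by_contra h
        exact hh ⟨i / 2, by omega, by omega⟩
      have e0 := succ_mod hi
      have e1 : (i + 1) % (2 * n) < 2 * n := Nat.mod_lt _ (by omega)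
      have e2 : (i + 1) % (2 * n) % 2 = 0 := by split_ifs at e0 <;> omega
      obtain ⟨b1, b2⟩ := h0 _ e1 e2
      rcases Sym2.eq_iff.1 e with e | e
      · exact (hA _ _ (hμ x hx)).1 hx (e.2 ▸ b1)
      · rw [← e.1, e.2] at b2
        have := hc _ hi _ (by omega) b2
        split_ifs at e0 <;> omega
    · rintro ⟨a, ha, rfl⟩
      obtain ⟨b1, b2⟩ := h0 (2 * a) (by omega) (by omega)
      exact ⟨by omega, _, b1, by rw [b2, Nat.mod_eq_of_lt (by omega)]⟩

lemma alt_elim [Fintype V] (A : V → Prop) (hA : ∀ x y, G.Adj x y → (A x ↔ ¬ A y)) (μ : V → V)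
    (hμ : ∀ x, A x → G.Adj x (μ x)) (inj : ∀ x y, A x → A y → μ x = μ y → x = y) {L : ℕ}
    (h : HasAlt G L) : ∃ (S : Finset V) (mate : V → V → Prop), S.Nonempty ∧ S.card ≤ L ∧
      (∀ x y, mate x y → G.Adj x y ∧ mate y x) ∧ (∀ x y z, mate x y → mate x z → y = z) ∧
      (∀ x, A x → ∃ y, mate x y) ∧ ∀ x ∈ S, (∃ y ∈ S, mate x y) ∧
        ∃ y ∈ S, ∃ z ∈ S, y ≠ z ∧ G.Adj x y ∧ G.Adj x z := by
  classical
  obtain ⟨M, h1, h2, k, c, a1, a2, -, a4, a5, a6⟩ := h
  obtain ⟨m1, m2⟩ := sat_match A hA μ hμ inj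
  have hS : ∀ i < k, c i ∈ (Finset.range k).image c := fun i hi =>
    Finset.mem_image_of_mem _ (by simpa using hi)
  have hlt : ∀ i, i % k < k := fun i => Nat.mod_lt _ (by omega)
  refine ⟨(Finset.range k).image c, fun x y => s(x, y) ∈ M, ⟨_, hS 0 (by omega)⟩,
    Finset.card_image_le.trans (by simpa using a2), fun x y h => ⟨h1.1 _ h, by beta_reduce; rwa [Sym2.eq_swap]⟩,
    fun x y z h h' => Sym2.congr_right.1 (h1.2 _ h _ h' x (by simp) (by simp)), fun x hx => ?_,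
    fun x hx => ⟨?_, ?_⟩⟩
  · have e1 := h1.card_le A (fun x y h => by have := hA x y h; tauto)
    have e2 := h2 _ m1
    have e3 := Finset.eq_of_subset_of_card_le (s := Finset.univ.filter fun x => A x ∧ ∃ e ∈ M, x ∈ e)
      (t := Finset.univ.filter A) (fun x hx => by simp at hx ⊢; exact hx.1) (by omega)
    have : x ∈ Finset.univ.filter fun x => A x ∧ ∃ e ∈ M, x ∈ e := by rw [e3]; simpa using hx
    simp only [Finset.mem_filter, Finset.mem_univ, true_and] at this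
    obtain ⟨-, e, he, hx⟩ := this
    exact ⟨Sym2.Mem.other hx, by beta_reduce; rwa [Sym2.other_spec]⟩
  · obtain ⟨j, hj, rfl⟩ := Finset.mem_image.1 hx
    set I := (Finset.range k).filter fun i => s(c i, c ((i + 1) % k)) ∈ M with hI
    have hmem : ∀ i ∈ I, i < k ∧ s(c i, c ((i + 1) % k)) ∈ M := fun i hi => by simpa [hI] using hi
    have d : Disjoint I (I.image fun i => (i + 1) % k) := by
      rw [Finset.disjoint_left]
      intro i hi hi'
      obtain ⟨i', hi', e⟩ := Finset.mem_image.1 hi'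
      obtain ⟨b1, b2⟩ := hmem i hi
      obtain ⟨b3, b4⟩ := hmem i' hi'
      rw [e] at b4
      have e1 := succ_mod b1
      have e2 := succ_mod b3
      rcases Sym2.eq_iff.1 (h1.2 _ b2 _ b4 (c i) (by simp) (by simp)) with h | h
      · have := a4 _ b1 _ b3 h.1
        split_ifs at e1 e2 <;> omega
      · have := a4 _ (hlt _) _ b3 h.2
        split_ifs at e1 e2 <;> omega
    have c2 : (I.image fun i => (i + 1) % k).card = I.card := by
      refine Finset.card_image_of_injOn fun a ha b hb e => ?_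
      have e1 := succ_mod (hmem a ha).1
      have e2 := succ_mod (hmem b hb).1
      split_ifs at e1 e2 <;> omega
    have e3 := Finset.eq_of_subset_of_card_le (s := I ∪ I.image fun i => (i + 1) % k)
      (t := Finset.range k) (fun a ha => by
        rcases Finset.mem_union.1 ha with ha | ha
        · simpa using (hmem a ha).1
        · obtain ⟨b, -, rfl⟩ := Finset.mem_image.1 ha
          simpa using hlt _) (by rw [Finset.card_union_of_disjoint d, c2]; simp; omega)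
    rw [← e3] at hj
    rcases Finset.mem_union.1 hj with ha | ha
    · exact ⟨_, hS _ (hlt _), (hmem j ha).2⟩
    · obtain ⟨b, hb, rfl⟩ := Finset.mem_image.1 ha
      exact ⟨_, hS _ (hmem b hb).1, by beta_reduce; rw [Sym2.eq_swap]; exact (hmem b hb).2⟩
  · obtain ⟨j, hj, rfl⟩ := Finset.mem_image.1 hx
    simp only [Finset.mem_range] at hj
    obtain ⟨i, hi, e⟩ : ∃ i < k, (i + 1) % k = j := by
      by_cases h : j = 0
      · exact ⟨k - 1, by omega, by rw [Nat.sub_add_cancel (by omega)]; simp [h]⟩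
      · exact ⟨j - 1, by omega, by rw [Nat.sub_add_cancel (by omega)]; exact Nat.mod_eq_of_lt hj⟩
    refine ⟨_, hS _ (hlt (j + 1)), _, hS _ hi, fun h => ?_, a5 j hj, e ▸ (a5 i hi).symm⟩
    have := a4 _ (hlt _) _ hi h
    have e1 := succ_mod hi
    have e2 := succ_mod hj
    split_ifs at e1 e2 <;> omega

end general

section lists
variable {α : Type} {E : List α} {r : α → α → Bool} (A : α → Prop) (μ : α → α)

open Classical in
noncomputable def lift (E : List α) (d : {x // x ∈ E}) (x : α) : {x // x ∈ E} :=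
  if h : x ∈ E then ⟨x, h⟩ else d

lemma lift_val (d : {x // x ∈ E}) {x : α} (h : x ∈ E) : (lift E d x).1 = x := by
  simp [lift, h]

lemma base (hA : ∀ x ∈ E, ∀ y ∈ E, r x y = true → ¬ A x ∧ A y)
    (hμ : ∀ x ∈ E, A x → μ x ∈ E ∧ r (μ x) x = true)
    (inj : ∀ x ∈ E, ∀ y ∈ E, A x → A y → μ x = μ y → x = y) :
    (∀ x y, (listGraph E r).Adj x y → (A x.1 ↔ ¬ A y.1)) ∧
    (∀ x, A x.1 → (listGraph E r).Adj x (lift E x (μ x.1))) ∧
    (∀ x y : {x // x ∈ E}, A x.1 → A y.1 → lift E x (μ x.1) = lift E y (μ y.1) → x = y) := by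
  refine ⟨fun x y h => ?_, fun x hx => ?_, fun x y hx hy e => ?_⟩
  · rcases ((listGraph_adj _ _ _ _).1 h).2 with h | h
    · have := hA _ x.2 _ y.2 h; tauto
    · have := hA _ y.2 _ x.2 h; tauto
  · obtain ⟨h1, h2⟩ := hμ _ x.2 hx
    rw [listGraph_adj, lift_val _ h1]
    exact ⟨fun e => (hA _ h1 _ x.2 h2).1 (e ▸ hx), Or.inr h2⟩
  · have := congrArg Subtype.val e
    rw [lift_val _ (hμ _ x.2 hx).1, lift_val _ (hμ _ y.2 hy).1] at this
    exact Subtype.ext (inj _ x.2 _ y.2 hx hy this)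

lemma alt_intro' (hA : ∀ x ∈ E, ∀ y ∈ E, r x y = true → ¬ A x ∧ A y)
    (hμ : ∀ x ∈ E, A x → μ x ∈ E ∧ r (μ x) x = true)
    (inj : ∀ x ∈ E, ∀ y ∈ E, A x → A y → μ x = μ y → x = y) (n L : ℕ)
    (c : ℕ → α) (h2 : 2 ≤ n) (hL : 2 * n ≤ L) (hE : ∀ i < 2 * n, c i ∈ E)
    (hc : ∀ i < 2 * n, ∀ j < 2 * n, c i = c j → i = j)
    (h0 : ∀ i < 2 * n, i % 2 = 0 → A (c i) ∧ μ (c i) = c (i + 1))
    (h1 : ∀ i < 2 * n, i % 2 = 1 → r (c i) (c ((i + 1) % (2 * n))) = true) :
    HasAlt (listGraph E r) L := by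
  classical
  obtain ⟨b1, b2, b3⟩ := base A μ hA hμ inj
  let d : {x // x ∈ E} := ⟨c 0, hE 0 (by omega)⟩
  refine alt_intro (fun x => A x.1) b1 _ b2 b3 n L (fun i => lift E d (c i)) h2 hL
    (fun i hi j hj e => ?_) (fun i hi h => ?_) (fun i hi h => ?_)
  · have := congrArg Subtype.val e
    rw [lift_val _ (hE i hi), lift_val _ (hE j hj)] at this
    exact hc i hi j hj this
  · obtain ⟨e1, e2⟩ := h0 i hi h
    simp only [lift_val _ (hE i hi)]
    refine ⟨e1, Subtype.ext ?_⟩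
    rw [e2, lift_val _ (hE _ (by omega)), lift_val _ (hE _ (by omega))]
  · have hlt : (i + 1) % (2 * n) < 2 * n := Nat.mod_lt _ (by omega)
    rw [listGraph_adj, lift_val _ (hE i hi), lift_val _ (hE _ hlt)]
    have := hA _ (hE i hi) _ (hE _ hlt) (h1 i hi h)
    exact ⟨fun e => this.1 (e ▸ this.2), Or.inl (h1 i hi h)⟩

lemma alt_elim' (hA : ∀ x ∈ E, ∀ y ∈ E, r x y = true → ¬ A x ∧ A y)
    (hμ : ∀ x ∈ E, A x → μ x ∈ E ∧ r (μ x) x = true)
    (inj : ∀ x ∈ E, ∀ y ∈ E, A x → A y → μ x = μ y → x = y) {L : ℕ}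
    (h : HasAlt (listGraph E r) L) : ∃ (S : Finset α) (mate : α → α → Prop), S.Nonempty ∧
      S.card ≤ L ∧ (∀ x y, mate x y → y ∈ E ∧ (r x y = true ∨ r y x = true) ∧ mate y x) ∧
      (∀ x y z, mate x y → mate x z → y = z) ∧
      (∀ x ∈ E, A x → ∃ y, mate x y) ∧ ∀ x ∈ S, x ∈ E ∧ (∃ y ∈ S, mate x y) ∧
        ∃ y ∈ S, ∃ z ∈ S, y ≠ z ∧ (r x y = true ∨ r y x = true) ∧
          (r x z = true ∨ r z x = true) := by
  classical
  obtain ⟨b1, b2, b3⟩ := base A μ hA hμ inj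
  obtain ⟨S, mate, a1, a2, a3, a4, a5, a6⟩ := alt_elim (fun x => A x.1) b1 _ b2 b3 h
  refine ⟨S.image Subtype.val, fun x y => ∃ hx hy, mate ⟨x, hx⟩ ⟨y, hy⟩, a1.image _,
    Finset.card_image_le.trans a2, ?_, ?_, ?_, ?_⟩
  · rintro x y ⟨hx, hy, h⟩
    exact ⟨hy, ((listGraph_adj _ _ _ _).1 (a3 _ _ h).1).2, hy, hx, (a3 _ _ h).2⟩
  · rintro x y z ⟨hx, hy, h⟩ ⟨_, hz, h'⟩
    exact congrArg Subtype.val (a4 _ _ _ h h')
  · intro x hx h
    obtain ⟨y, hy⟩ := a5 ⟨x, hx⟩ h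
    exact ⟨y.1, hx, y.2, hy⟩
  · intro x hx
    obtain ⟨x, hx', rfl⟩ := Finset.mem_image.1 hx
    obtain ⟨⟨y, hy, h⟩, u, hu, v, hv, e, h1, h2⟩ := a6 x hx'
    exact ⟨x.2, ⟨y.1, Finset.mem_image_of_mem _ hy, x.2, y.2, h⟩, u.1,
      Finset.mem_image_of_mem _ hu, v.1, Finset.mem_image_of_mem _ hv,
      fun e' => e (Subtype.ext e'), ((listGraph_adj _ _ _ _).1 h1).2,
      ((listGraph_adj _ _ _ _).1 h2).2⟩

end lists

/-! ### the reduction -/

abbrev Pt := ℕ × ℕ × ℕ × ℕ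

/-- occurrences of literals, with the number of their clause -/
def occ (φ : CNF) : List (ℕ × ℕ × Bool) := φ.zipIdx.flatMap fun c => c.1.map fun l => (c.2, l)

def cl (O : List (ℕ × ℕ × Bool)) (s : ℕ) : ℕ := (O.getD s (0, 0, false)).1

def conf (O : List (ℕ × ℕ × Bool)) (s t : ℕ) : Bool :=
  (cl O s == cl O t) || ((O.getD s (0, 0, false)).2.1 == (O.getD t (0, 0, false)).2.1 &&
    (O.getD s (0, 0, false)).2.2 != (O.getD t (0, 0, false)).2.2)

def Valid (O : List (ℕ × ℕ × Bool)) (m L : ℕ) (x : Pt) : Prop :=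
  ((x.1 = 0 ∨ x.1 = 1) ∧ x.2.1 < m ∧ x.2.2.1 = 0 ∧ x.2.2.2 = 0) ∨
  (x.1 = 3 ∧ x.2.1 < O.length ∧ x.2.2.1 < O.length ∧ x.2.2.2 = 0) ∨
  ((x.1 = 2 ∨ x.1 = 7) ∧ x.2.1 < O.length ∧ x.2.2.1 + 1 < O.length ∧ x.2.2.2 = 0) ∨
  (x.1 = 4 ∧ x.2.1 < x.2.2.1 ∧ x.2.2.1 < O.length ∧ x.2.2.2 ≤ L ∧ conf O x.2.1 x.2.2.1 = true) ∨
  (x.1 = 5 ∧ x.2.1 < x.2.2.1 ∧ x.2.2.1 < O.length ∧ x.2.2.2 < L ∧ conf O x.2.1 x.2.2.1 = true)

instance (O : List (ℕ × ℕ × Bool)) (m L : ℕ) (x : Pt) : Decidable (Valid O m L x) := by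
  unfold Valid; infer_instance

def Edge (O : List (ℕ × ℕ × Bool)) (m L : ℕ) (x y : Pt) : Prop :=
  (x.1 = 1 ∧ y.1 = 0 ∧ y.2.1 = x.2.1) ∨
  (x.1 = 3 ∧ y.1 = 0 ∧ x.2.2.1 = 0 ∧ y.2.1 = cl O x.2.1) ∨
  (x.1 = 3 ∧ y.1 = 0 ∧ x.2.2.1 + 1 = O.length ∧ y.2.1 = (cl O x.2.1 + 1) % m) ∨
  (x.1 = 3 ∧ y.1 = 2 ∧ y.2.1 = x.2.1 ∧ (y.2.2.1 + 1 = x.2.2.1 ∨ y.2.2.1 = x.2.2.1)) ∨
  (x.1 = 7 ∧ y.1 = 2 ∧ y.2.1 = x.2.1 ∧ y.2.2.1 = x.2.2.1) ∨
  (x.1 = 3 ∧ y.1 = 4 ∧ y.2.1 = x.2.1 ∧ y.2.2.1 = x.2.2.1 ∧ y.2.2.2 = 0) ∨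
  (x.1 = 3 ∧ y.1 = 4 ∧ y.2.1 = x.2.2.1 ∧ y.2.2.1 = x.2.1 ∧ y.2.2.2 = L) ∨
  (x.1 = 5 ∧ y.1 = 4 ∧ y.2.1 = x.2.1 ∧ y.2.2.1 = x.2.2.1 ∧
    (y.2.2.2 = x.2.2.2 ∨ y.2.2.2 = x.2.2.2 + 1))

instance (O : List (ℕ × ℕ × Bool)) (m L : ℕ) (x y : Pt) : Decidable (Edge O m L x y) := by
  unfold Edge; infer_instance

def verts (O : List (ℕ × ℕ × Bool)) (m L : ℕ) : List Pt :=
  (List.range 8 ×ˢ List.range (m + O.length) ×ˢ List.range (O.length + 1) ×ˢ
    List.range (L + 1)).filter fun x => decide (Valid O m L x)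

def build (O : List (ℕ × ℕ × Bool)) (m : ℕ) : List (List Bool) × ℕ :=
  (gmat (verts O m (2 * (O.length * m))) fun x y => decide (Edge O m (2 * (O.length * m)) x y),
    2 * (O.length * m))

def red (φ : CNF) : List (List Bool) × ℕ :=
  build (occ ([(0, true), (0, false)] :: φ)) (φ.length + 1)

@[fun_prop] lemma cl_pt {α : Type} [Enc α] {O : α → List (ℕ × ℕ × Bool)} {s : α → ℕ} (hO : PT O)
    (hs : PT s) : PT (fun a => cl (O a) (s a)) := by
  unfold cl; fun_prop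

@[fun_prop] lemma conf_pt {α : Type} [Enc α] {O : α → List (ℕ × ℕ × Bool)} {s t : α → ℕ}
    (hO : PT O) (hs : PT s) (ht : PT t) : PT (fun a => conf (O a) (s a) (t a)) := by
  unfold conf; fun_prop

lemma valid_pt : PT (fun p : (List (ℕ × ℕ × Bool) × ℕ × ℕ) × Pt =>
    decide (Valid p.1.1 p.1.2.1 p.1.2.2 p.2)) :=
  PP.decide (by unfold Valid; fun_prop)

lemma edge_pt : PT (fun p : (List (ℕ × ℕ × Bool) × ℕ × ℕ) × Pt × Pt =>
    decide (Edge p.1.1 p.1.2.1 p.1.2.2 p.2.1 p.2.2)) :=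
  PP.decide (by unfold Edge; fun_prop)

lemma red_pt : PT red := by
  have h1 : PT (fun p : List (ℕ × ℕ × Bool) × ℕ × ℕ =>
      gmat (verts p.1 p.2.1 p.2.2) fun x y => decide (Edge p.1 p.2.1 p.2.2 x y)) :=
    PT.gmat (PT.filter valid_pt (by fun_prop)) edge_pt
  have h2 : PT (fun p : List (ℕ × ℕ × Bool) × ℕ => build p.1 p.2) :=
    (PT.comp (f := fun p : List (ℕ × ℕ × Bool) × ℕ => (p.1, p.2, 2 * (p.1.length * p.2))) h1
      (by fun_prop)).pair (by fun_prop)
  exact PT.comp (f := fun φ : CNF => (occ ([(0, true), (0, false)] :: φ), φ.length + 1)) h2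
    (by unfold occ; fun_prop)

lemma mem_verts {O : List (ℕ × ℕ × Bool)} {m L : ℕ} {x : Pt} : x ∈ verts O m L ↔ Valid O m L x := by
  obtain ⟨g, s, t, i⟩ := x
  simp only [verts, List.mem_filter, List.mem_product, List.mem_range, decide_eq_true_eq,
    and_iff_right_iff_imp, Valid]
  omega

lemma nodup_verts (O : List (ℕ × ℕ × Bool)) (m L : ℕ) : (verts O m L).Nodup :=
  (List.nodup_range.product (List.nodup_range.product
    (List.nodup_range.product List.nodup_range))).filter _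

def IsA (x : Pt) : Prop := x.1 = 0 ∨ x.1 = 2 ∨ x.1 = 4

def mu (ch : ℕ → Prop) [DecidablePred ch] (σ : ℕ → Option ℕ) (L : ℕ) (x : Pt) : Pt :=
  if x.1 = 0 then (match σ x.2.1 with
    | none => (1, x.2.1, 0, 0)
    | some s => (3, s, 0, 0))
  else if x.1 = 2 then (if ch x.2.1 then (3, x.2.1, x.2.2.1 + 1, 0) else (7, x.2.1, x.2.2.1, 0))
  else if ch x.2.1 then
    (if x.2.2.2 = L then (3, x.2.2.1, x.2.1, 0) else (5, x.2.1, x.2.2.1, x.2.2.2))
  else (if x.2.2.2 = 0 then (3, x.2.1, x.2.2.1, 0) else (5, x.2.1, x.2.2.1, x.2.2.2 - 1))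

section
variable {O : List (ℕ × ℕ × Bool)} {m L : ℕ}

lemma bip : ∀ x ∈ verts O m L, ∀ y ∈ verts O m L, decide (Edge O m L x y) = true →
    ¬ IsA x ∧ IsA y := by
  intro x _ y _ h
  simp only [decide_eq_true_eq, Edge, IsA] at *
  omega

lemma mu_ok (ch : ℕ → Prop) [DecidablePred ch] (σ : ℕ → Option ℕ)
    (h1 : ∀ j s, σ j = some s → s < O.length ∧ cl O s = j) :
    ∀ x ∈ verts O m L, IsA x → mu ch σ L x ∈ verts O m L ∧
      decide (Edge O m L (mu ch σ L x) x) = true := by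
  rintro ⟨g, s, t, i⟩ hx hA
  simp only [mem_verts, decide_eq_true_eq, IsA, Valid] at *
  rcases hA with rfl | rfl | rfl
  · cases h : σ s with
    | none => simp [mu, h, Edge]; omega
    | some u => have := h1 _ _ h; simp [mu, h, Edge]; omega
  · by_cases h : ch s <;> simp [mu, h, Edge] <;> omega
  · simp only [OfNat.ofNat_ne_zero, OfNat.ofNat_ne_one, or_self, false_and, Nat.reduceEqDiff,
      true_and, false_or, or_false] at hx
    by_cases h : ch s
    · by_cases h' : i = L <;> simp [mu, h, h', Edge, hx] <;> omega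
    · by_cases h' : i = 0 <;> simp [mu, h, h', Edge, hx] <;> omega

lemma mu_inj (ch : ℕ → Prop) [DecidablePred ch] (σ : ℕ → Option ℕ)
    (h1 : ∀ j s, σ j = some s → cl O s = j ∧ ch s)
    (h2 : ∀ s t, s < t → conf O s t = true → ch s → ¬ ch t) :
    ∀ x ∈ verts O m L, ∀ y ∈ verts O m L, IsA x → IsA y → mu ch σ L x = mu ch σ L y → x = y := by
  rintro ⟨g, s, t, i⟩ hx ⟨g', s', t', i'⟩ hy hA hA' e
  simp only [mem_verts, IsA, Valid] at hx hy hA hA'
  have a1 := h1 s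
  have a2 := h1 s'
  have a3 := h2 s t
  have a4 := h2 s' t'
  rcases hA with rfl | rfl | rfl <;> rcases hA' with rfl | rfl | rfl <;>
    simp only [OfNat.ofNat_ne_zero, OfNat.ofNat_ne_one, or_self, false_and, Nat.reduceEqDiff,
      true_and, false_or, or_false, zero_ne_one, OfNat.zero_ne_ofNat] at hx hy <;>
    simp only [mu, OfNat.ofNat_ne_zero, if_true, if_false, Nat.reduceEqDiff] at e <;>
    (try cases h : σ s) <;> (try cases h' : σ s') <;> (try simp only [h] at e) <;>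
    (try simp only [h'] at e) <;> (try split_ifs at e) <;>
    simp only [Prod.mk.injEq, Nat.reduceEqDiff, false_and, true_and, and_true] at e ⊢ <;>
    first | omega | grind

lemma conf_symm (s t : ℕ) : conf O s t = conf O t s := by
  simp only [conf]
  rw [Bool.eq_iff_iff]
  simp only [Bool.or_eq_true, beq_iff_eq, Bool.and_eq_true, bne_iff_ne]
  constructor <;> rintro (h | ⟨h, h'⟩) <;>
    first | exact Or.inl h.symm | exact Or.inr ⟨h.symm, h'.symm⟩

lemma divmod {D j q : ℕ} (h : q < D) : (D * j + q) / D = j ∧ (D * j + q) % D = q := by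
  constructor
  · rw [Nat.mul_add_div (by omega), Nat.div_eq_of_lt h]; rfl
  · rw [Nat.mul_add_mod, Nat.mod_eq_of_lt h]

lemma fwd (hR : 2 ≤ O.length) (hm : 1 ≤ m) (σ : ℕ → ℕ)
    (h1 : ∀ j < m, σ j < O.length ∧ cl O (σ j) = j)
    (h2 : ∀ j < m, ∀ j' < m, j ≠ j' → conf O (σ j) (σ j') = false) :
    HasAlt (listGraph (verts O m L) fun x y => decide (Edge O m L x y)) (2 * (O.length * m)) := by
  classical
  set R := O.length with hRdef
  let f : ℕ → ℕ → Pt := fun j q => if q = 0 then (0, j, 0, 0) else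
    if q % 2 = 1 then (3, σ j, q / 2, 0) else (2, σ j, q / 2 - 1, 0)
  have hdec : ∀ i < 2 * (R * m), ∃ j < m, ∃ q < 2 * R, i = 2 * R * j + q := fun i hi =>
    ⟨i / (2 * R), by rw [Nat.div_lt_iff_lt_mul (by omega)]; nlinarith, i % (2 * R),
      Nat.mod_lt _ (by omega), (Nat.div_add_mod _ _).symm⟩
  refine alt_intro' IsA (mu (fun s => ∃ j < m, σ j = s) (fun j => if j < m then some (σ j) else none)
    L) bip (mu_ok _ _ fun j s h => ?_) (mu_inj _ _ (fun j s h => ?_) ?_) (R * m) _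
    (fun i => f (i / (2 * R)) (i % (2 * R))) (by nlinarith) le_rfl ?_ ?_ ?_ ?_
  · split_ifs at h with hj
    cases h; exact h1 j hj
  · split_ifs at h with hj
    cases h; exact ⟨(h1 j hj).2, j, hj, rfl⟩
  · rintro _ _ hst hc ⟨j, hj, rfl⟩ ⟨j', hj', rfl⟩
    rw [h2 j hj j' hj' (fun e => by rw [e] at hst; omega)] at hc
    simp at hc
  · intro i hi
    obtain ⟨j, hj, q, hq, rfl⟩ := hdec i hi
    have := h1 j hj
    simp only [(divmod hq).1, (divmod hq).2, f, mem_verts]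
    split_ifs <;> simp [Valid] <;> omega
  · intro i hi i' hi' e
    obtain ⟨j, hj, q, hq, rfl⟩ := hdec i hi
    obtain ⟨j', hj', q', hq', rfl⟩ := hdec i' hi'
    have a1 := h1 j hj
    have a2 := h1 j' hj'
    simp only [(divmod hq).1, (divmod hq).2, (divmod hq').1, (divmod hq').2, f] at e
    have : j = j' ∧ q = q' := by
      split_ifs at e <;> simp only [Prod.mk.injEq] at e <;> first | omega | grind
    rw [this.1, this.2]
  · intro i hi he
    obtain ⟨j, hj, q, hq, rfl⟩ := hdec i hi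
    have hq2 : q % 2 = 0 := by
      have : 2 * R * j = 2 * (R * j) := by ring
      omega
    have hq' : q + 1 < 2 * R := by omega
    simp only [add_assoc, (divmod hq).1, (divmod hq).2, (divmod hq').1, (divmod hq').2, f]
    have hch : ∃ j' < m, σ j' = σ j := ⟨j, hj, rfl⟩
    by_cases h0 : q = 0
    · simp [h0, IsA, mu, hj]
    · simp [h0, IsA, mu, hq2, hch, show (q + 1) % 2 = 1 by omega]; omega
  · intro i hi he
    obtain ⟨j, hj, q, hq, rfl⟩ := hdec i hi
    have hq2 : q % 2 = 1 := by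
      have : 2 * R * j = 2 * (R * j) := by ring
      omega
    have a1 := h1 j hj
    by_cases hq' : q + 1 < 2 * R
    · have : 2 * R * j + q + 1 < 2 * (R * m) := by nlinarith
      rw [Nat.mod_eq_of_lt this]
      simp only [add_assoc, (divmod hq).1, (divmod hq).2, (divmod hq').1, (divmod hq').2, f]
      simp [hq2, show q ≠ 0 by omega, show (q + 1) % 2 = 0 by omega, Edge]; omega
    · have e : (2 * R * j + q + 1) % (2 * (R * m)) = 2 * R * ((j + 1) % m) + 0 := by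
        rw [show 2 * R * j + q + 1 = 2 * R * (j + 1) by
          have : q + 1 = 2 * R := by omega
          rw [add_assoc, this]; ring, ← mul_assoc, Nat.mul_mod_mul_left]; rfl
      have h0 : 0 < 2 * R := by omega
      rw [e]
      simp only [(divmod hq).1, (divmod hq).2, (divmod h0).1, (divmod h0).2, f]
      simp [hq2, show q ≠ 0 by omega, Edge, a1.2]; omega

lemma bwd (hcl : ∀ s < O.length, cl O s < m)
    (h : HasAlt (listGraph (verts O m L) fun x y => decide (Edge O m L x y)) L) :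
    ∃ T : ℕ → Prop, (∀ j < m, ∃ s < O.length, T s ∧ cl O s = j) ∧
      ∀ s < O.length, ∀ t < O.length, T s → T t → s ≠ t → conf O s t = false := by
  classical
  obtain ⟨S, mate, ⟨x0, hx0⟩, a2, a3, a4, a5, a6⟩ := alt_elim' IsA
    (mu (fun _ => False) (fun _ => none) L) bip (mu_ok _ _ (by simp)) (mu_inj _ _ (by simp) (by simp)) h
  simp only [mem_verts, decide_eq_true_eq] at a3 a5 a6
  have val : ∀ x ∈ S, Valid O m L x := fun x hx => (a6 x hx).1
  have two : ∀ x ∈ S, ∀ P : Pt → Prop, (∀ y, Valid O m L y → Edge O m L x y ∨ Edge O m L y x →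
      y ∈ S → P y) → ∃ y z, y ≠ z ∧ y ∈ S ∧ z ∈ S ∧ P y ∧ P z := by
    intro x hx P hP
    obtain ⟨y, hy, z, hz, e, h1, h2⟩ := (a6 x hx).2.2
    exact ⟨y, z, e, hy, hz, hP y (val y hy) h1 hy, hP z (val z hz) h2 hz⟩
  have both : ∀ x ∈ S, ∀ u v : Pt, (∀ y, Valid O m L y → Edge O m L x y ∨ Edge O m L y x →
      y ∈ S → y = u ∨ y = v) → u ∈ S ∧ v ∈ S := by
    intro x hx u v hP
    obtain ⟨y, z, e, hy, hz, h1, h2⟩ := two x hx _ hP
    rcases h1 with rfl | rfl <;> rcases h2 with h2 | h2 <;> subst h2 <;>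
      first | exact absurd rfl e | exact ⟨hy, hz⟩ | exact ⟨hz, hy⟩
  -- no pendant vertices
  have np : ∀ x ∈ S, x.1 ≠ 1 ∧ x.1 ≠ 7 := by
    rintro ⟨g, s, t, i⟩ hx
    have hv := val _ hx
    constructor <;> rintro rfl
    · obtain ⟨y, z, e, -, -, rfl, rfl⟩ := two _ hx (fun y => y = (0, s, 0, 0)) (by
        rintro ⟨g', s', t', i'⟩ h1 h2 -
        simp only [Valid, Edge, Prod.mk.injEq] at h1 h2 hv ⊢; clear a2; omega)
      exact e rfl
    · obtain ⟨y, z, e, -, -, rfl, rfl⟩ := two _ hx (fun y => y = (2, s, t, 0)) (by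
        rintro ⟨g', s', t', i'⟩ h1 h2 -
        simp only [Valid, Edge, Prod.mk.injEq] at h1 h2 hv ⊢; clear a2; omega)
      exact e rfl
  -- no connector vertices
  have c5 : ∀ s t i, (5, s, t, i) ∈ S → (4, s, t, i) ∈ S ∧ (4, s, t, i + 1) ∈ S := by
    intro s t i hx
    refine both _ hx _ _ ?_
    rintro ⟨g', s', t', i'⟩ h1 h2 -
    simp only [Valid, Edge, Prod.mk.injEq] at h1 h2 ⊢; clear a2; omega
  have c4 : ∀ s t i, (4, s, t, i) ∈ S → (i < L → (5, s, t, i) ∈ S) ∧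
      (0 < i → (5, s, t, i - 1) ∈ S) := by
    intro s t i hx
    have hv := val _ hx
    have := both _ hx (if i < L then (5, s, t, i) else (3, t, s, 0))
      (if 0 < i then (5, s, t, i - 1) else (3, s, t, 0)) (by
      rintro ⟨g', s', t', i'⟩ h1 h2 -
      clear a2
      split_ifs <;> simp only [Valid, Edge, Prod.mk.injEq] at h1 h2 hv ⊢ <;> omega)
    exact ⟨fun h => by simpa [h] using this.1, fun h => by simpa [h] using this.2⟩
  have n4 : ∀ s t i, (4, s, t, i) ∉ S := by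
    intro s t i hx
    have h0 : (4, s, t, 0) ∈ S := by
      induction i with
      | zero => exact hx
      | succ i ih => exact ih (c5 _ _ _ ((c4 _ _ _ hx).2 (by omega))).1
    have h1 : ∀ i ≤ L, (4, s, t, i) ∈ S := by
      intro i hi
      induction i with
      | zero => exact h0
      | succ i ih => exact (c5 _ _ _ ((c4 _ _ _ (ih (by omega))).1 (by omega))).2
    have := Finset.card_le_card_of_injOn (s := Finset.range (L + 1)) (t := S)
      (fun i => (4, s, t, i)) (fun i hi => h1 i (by simp at hi; omega))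
      (fun a _ b _ e => by simpa using e)
    simp at this; omega
  have n4' : ∀ x ∈ S, x.1 ≠ 4 := by
    rintro ⟨g, s, t, i⟩ hx rfl; exact n4 _ _ _ hx
  -- lobes
  have l2 : ∀ s t, (2, s, t, 0) ∈ S → (3, s, t, 0) ∈ S ∧ (3, s, t + 1, 0) ∈ S := by
    intro s t hx
    refine both _ hx _ _ ?_
    rintro ⟨g', s', t', i'⟩ h1 h2 h3
    have := np _ h3
    simp only [Valid, Edge, Prod.mk.injEq] at h1 h2 this ⊢; clear a2; omega
  have l3 : ∀ s t, (3, s, t, 0) ∈ S →
      (if t = 0 then (0, cl O s, 0, 0) else (2, s, t - 1, 0)) ∈ S ∧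
      (if t + 1 = O.length then (0, (cl O s + 1) % m, 0, 0) else (2, s, t, 0)) ∈ S := by
    intro s t hx
    refine both _ hx _ _ ?_
    rintro ⟨g', s', t', i'⟩ h1 h2 h3
    have := n4' _ h3
    simp only [Valid, Edge] at h1 h2 this
    clear a2 h3 hx
    generalize (cl O s + 1) % m = z at *
    split_ifs <;> simp only [Prod.mk.injEq] <;> omega
  have down : ∀ s t, (3, s, t, 0) ∈ S → (3, s, 0, 0) ∈ S := by
    intro s t hx
    induction t with
    | zero => exact hx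
    | succ t ih => exact ih (l2 _ _ (by simpa using (l3 _ _ hx).1)).1
  have up : ∀ s, (3, s, 0, 0) ∈ S → ∀ t < O.length, (3, s, t, 0) ∈ S := by
    intro s hx t ht
    induction t with
    | zero => exact hx
    | succ t ih =>
      exact (l2 _ _ (by simpa [show t + 1 ≠ O.length by omega] using (l3 _ _ (ih (by omega))).2)).2
  -- forbidden pairs
  have taken : ∀ x ∈ S, ∀ s t i, ¬ mate (4, s, t, i) x := by
    intro x hx s t i h
    obtain ⟨y, hy, h'⟩ := (a6 x hx).2.1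
    exact n4 s t i (a4 _ _ _ (a3 _ _ h).2.2 h' ▸ hy)
  have forb : ∀ s t, s < t → t < O.length → conf O s t = true → (3, s, 0, 0) ∈ S →
      (3, t, 0, 0) ∉ S := by
    intro s t hst ht hc h1 h2
    have b1 := taken _ (up s h1 t ht)
    have b2 := taken _ (up t h2 s (by omega))
    have h6 : ∀ i ≤ L, (i < L ∧ mate (4, s, t, i) (5, s, t, i)) ∨
        (0 < i ∧ mate (4, s, t, i) (5, s, t, i - 1)) := by
      intro i hi
      have hx : ∃ y, mate (4, s, t, i) y := a5 _ (by simp [Valid, hst, ht, hi, hc]) (by simp [IsA])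
      obtain ⟨⟨g', s', t', i'⟩, hy⟩ := hx
      obtain ⟨h3, h4, -⟩ := a3 _ _ hy
      have h6 : (g', s', t', i') = (3, s, t, 0) ∨ (g', s', t', i') = (3, t, s, 0) ∨
          ((g', s', t', i') = (5, s, t, i) ∧ i < L) ∨
          ((g', s', t', i') = (5, s, t, i - 1) ∧ 0 < i) := by
        simp only [Valid, Edge, Prod.mk.injEq] at h3 h4 ⊢; clear a2; omega
      rcases h6 with e | e | ⟨e, h⟩ | ⟨e, h⟩
      · exact absurd (e ▸ hy) (b1 _ _ _)
      · exact absurd (e ▸ hy) (b2 _ _ _)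
      · exact Or.inl ⟨h, e ▸ hy⟩
      · exact Or.inr ⟨h, e ▸ hy⟩
    have key : ∀ i ≤ L, i < L ∧ mate (4, s, t, i) (5, s, t, i) := by
      intro i hi
      induction i with
      | zero => exact (h6 0 hi).resolve_right (by simp)
      | succ i ih =>
        refine (h6 _ hi).resolve_right fun h => ?_
        have := a4 _ _ _ (a3 _ _ h.2).2.2 (a3 _ _ (ih (by omega)).2).2.2
        simp at this
    have := (key L le_rfl).1
    omega
  have hub : ∀ j, (0, j, 0, 0) ∈ S → ∃ s < O.length, (3, s, 0, 0) ∈ S ∧ cl O s = j := by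
    intro j hx
    obtain ⟨⟨g, s, t, i⟩, ⟨g', s', t', i'⟩, e, hy, hz, h1, h2⟩ := two _ hx
      (fun y => y.1 = 3 ∧ y.2.1 < O.length ∧ y.2.2.2 = 0 ∧ ((y.2.2.1 = 0 ∧ cl O y.2.1 = j) ∨
        (y.2.2.1 + 1 = O.length ∧ (cl O y.2.1 + 1) % m = j))) (by
      rintro ⟨g', s', t', i'⟩ h1 h2 h3
      have := np _ h3
      simp only [Valid, Edge] at h1 h2 this ⊢
      clear a2 h3 hx
      generalize (cl O s' + 1) % m = z at *
      omega)
    simp only at h1 h2
    obtain ⟨rfl, b1, rfl, b2⟩ := h1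
    obtain ⟨rfl, b3, rfl, b4⟩ := h2
    rcases b2 with ⟨rfl, b2⟩ | ⟨b2, b5⟩
    · exact ⟨s, b1, hy, b2⟩
    rcases b4 with ⟨rfl, b4⟩ | ⟨b4, b6⟩
    · exact ⟨s', b3, hz, b4⟩
    exfalso
    have e1 := succ_mod (hcl s b1)
    have e2 := succ_mod (hcl s' b3)
    have e3 : cl O s = cl O s' := by split_ifs at e1 e2 <;> omega
    have e4 : s ≠ s' := by
      rintro rfl
      exact e (by rw [show t = t' by omega])
    rcases lt_or_gt_of_ne e4 with h | h
    · exact forb s s' h b3 (by simp [conf, e3]) (down _ _ hy) (down _ _ hz)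
    · exact forb s' s h b1 (by simp [conf, e3]) (down _ _ hz) (down _ _ hy)
  have nxt : ∀ j, (0, j, 0, 0) ∈ S → (0, (j + 1) % m, 0, 0) ∈ S := by
    intro j hx
    obtain ⟨s, h1, h2, rfl⟩ := hub j hx
    simpa [show O.length - 1 + 1 = O.length by omega] using
      (l3 _ _ (up s h2 (O.length - 1) (by omega))).2
  have h0 : ∃ j < m, (0, j, 0, 0) ∈ S := by
    obtain ⟨g, s, t, i⟩ := x0
    have hv := val _ hx0
    have h1 := np _ hx0
    have h2 := n4' _ hx0
    have h3 : g ≠ 5 := by rintro rfl; exact n4 _ _ _ (c5 _ _ _ hx0).1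
    have h4 : (g = 0 ∧ s < m ∧ t = 0 ∧ i = 0) ∨ (g = 3 ∧ s < O.length ∧ i = 0) ∨
        (g = 2 ∧ s < O.length ∧ i = 0) := by
      simp only [Valid] at hv h1 h2; clear a2; omega
    rcases h4 with ⟨rfl, h, rfl, rfl⟩ | ⟨rfl, h, rfl⟩ | ⟨rfl, h, rfl⟩
    · exact ⟨s, h, hx0⟩
    · exact ⟨_, hcl s h, by simpa using (l3 _ _ (down _ _ hx0)).1⟩
    · exact ⟨_, hcl s h, by simpa using (l3 _ _ (down _ _ (l2 _ _ hx0).1)).1⟩
  obtain ⟨j0, hj0, h0⟩ := h0
  have all : ∀ d, (0, (j0 + d) % m, 0, 0) ∈ S := by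
    intro d
    induction d with
    | zero => simpa [Nat.mod_eq_of_lt hj0] using h0
    | succ d ih => simpa [← add_assoc] using nxt _ ih
  refine ⟨fun s => (3, s, 0, 0) ∈ S, fun j hj => hub j ?_, fun s hs t ht h1 h2 e => ?_⟩
  · have := all (m - j0 + j)
    rwa [show j0 + (m - j0 + j) = m + j by omega, Nat.add_mod_left, Nat.mod_eq_of_lt hj] at this
  · by_contra hc
    simp only [Bool.not_eq_false] at hc
    rcases lt_or_gt_of_ne e with h | h
    · exact forb s t h ht hc h1 h2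
    · exact forb t s h hs (conf_symm s t ▸ hc) h2 h1

end

lemma mem_occ {φ : CNF} {x : ℕ × ℕ × Bool} : x ∈ occ φ ↔ ∃ h : x.1 < φ.length, x.2 ∈ φ[x.1] := by
  obtain ⟨j, l⟩ := x
  simp only [occ, List.mem_flatMap, List.mem_map, Prod.mk.injEq, Prod.exists, List.mem_zipIdx_iff_getElem?]
  constructor
  · rintro ⟨c, i, h, a, b, h1, rfl, rfl⟩
    obtain ⟨h2, rfl⟩ := List.getElem?_eq_some_iff.1 h
    exact ⟨h2, h1⟩
  · rintro ⟨h, h1⟩
    exact ⟨_, j, List.getElem?_eq_getElem h, l.1, l.2, h1, rfl, rfl⟩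

lemma link (ψ : CNF) (hR : 2 ≤ (occ ψ).length) (hm : 1 ≤ ψ.length) :
    Sat ψ ↔ HasAlt (listGraph (verts (occ ψ) ψ.length (2 * ((occ ψ).length * ψ.length)))
      fun x y => decide (Edge (occ ψ) ψ.length (2 * ((occ ψ).length * ψ.length)) x y))
      (2 * ((occ ψ).length * ψ.length)) := by
  have hget : ∀ s (h : s < (occ ψ).length), (occ ψ).getD s (0, 0, false) = (occ ψ)[s] :=
    fun s h => List.getD_eq_getElem _ _ h
  constructor
  · rintro ⟨τ, hτ⟩
    have : ∀ j, ∃ s, j < ψ.length → s < (occ ψ).length ∧ cl (occ ψ) s = j ∧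
        τ ((occ ψ).getD s (0, 0, false)).2.1 = ((occ ψ).getD s (0, 0, false)).2.2 := by
      intro j
      by_cases hj : j < ψ.length
      · obtain ⟨l, h1, h2⟩ := hτ _ (List.getElem_mem hj)
        obtain ⟨s, hs, e⟩ := List.getElem_of_mem (mem_occ.2 ⟨hj, h1⟩ : (j, l) ∈ occ ψ)
        exact ⟨s, fun _ => ⟨hs, by rw [cl, hget s hs, e], by rw [hget s hs, e]; exact h2⟩⟩
      · exact ⟨0, fun h => absurd h hj⟩
    choose σ hσ using this
    refine fwd hR hm σ (fun j hj => ⟨(hσ j hj).1, (hσ j hj).2.1⟩) fun j hj j' hj' e => ?_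
    obtain ⟨-, a1, a2⟩ := hσ j hj
    obtain ⟨-, b1, b2⟩ := hσ j' hj'
    simp only [conf, a1, b1, Bool.or_eq_false_iff, beq_eq_false_iff_ne, Bool.and_eq_false_imp,
      beq_iff_eq, bne_eq_false_iff_eq]
    exact ⟨e, fun h => by rw [← a2, ← b2, h]⟩
  · intro h
    classical
    obtain ⟨T, h1, h2⟩ := bwd (fun s hs => by
      rw [cl, hget s hs]; exact (mem_occ.1 (List.getElem_mem hs)).1) h
    refine ⟨fun v => decide (∃ s < (occ ψ).length, T s ∧
      ((occ ψ).getD s (0, 0, false)).2 = (v, true)), fun c hc => ?_⟩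
    obtain ⟨j, hj, rfl⟩ := List.getElem_of_mem hc
    obtain ⟨s, hs, hT, e⟩ := h1 j hj
    obtain ⟨b1, b2⟩ := mem_occ.1 (List.getElem_mem hs)
    rw [cl, hget s hs] at e
    refine ⟨((occ ψ)[s]).2, by simpa only [e] using b2, ?_⟩
    cases hb : ((occ ψ)[s]).2.2
    · simp only [decide_eq_false_iff_not]
      rintro ⟨t, ht, hT', e'⟩
      have := h2 s hs t ht hT hT' (by rintro rfl; rw [hget s hs] at e'; rw [e'] at hb; simp at hb)
      rw [conf, e', hget s hs, hb] at this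
      simp at this
    · simp only [decide_eq_true_eq]
      exact ⟨s, hs, hT, by rw [hget s hs, ← hb]⟩

lemma red_correct (φ : CNF) : (Sat φ ↔ SAC (red φ)) ∧ (graphOf (red φ).1).IsBipartite := by
  classical
  set ψ : CNF := [(0, true), (0, false)] :: φ with hψ
  have hO : ∃ r, occ ψ = (0, 0, true) :: (0, 0, false) :: r := ⟨_, by
    simp only [hψ, occ, List.zipIdx_cons, List.flatMap_cons]; rfl⟩
  obtain ⟨r, hO⟩ := hO
  have hR : 2 ≤ (occ ψ).length := by simp [hO]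
  have hm : ψ.length = φ.length + 1 := rfl
  have h1 : Sat φ ↔ Sat ψ := by
    constructor
    · rintro ⟨τ, h⟩
      refine ⟨τ, fun c hc => ?_⟩
      rcases List.mem_cons.1 hc with rfl | hc
      · cases h : τ 0 <;> simp [h]
      · exact h c hc
    · rintro ⟨τ, h⟩
      exact ⟨τ, fun c hc => h c (List.mem_cons_of_mem _ hc)⟩
  have e := gmatIso (verts (occ ψ) ψ.length (2 * ((occ ψ).length * ψ.length)))
    (fun x y => decide (Edge (occ ψ) ψ.length (2 * ((occ ψ).length * ψ.length)) x y))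
    (nodup_verts _ _ _)
  refine ⟨h1.trans ((link ψ hR (by simp [hm])).trans ⟨fun h => ⟨isGraph_gmat _ _, ?_, ?_,
    h.map e.symm⟩, fun h => HasAlt.map e h.2.2.2⟩), ?_⟩
  · show 1 ≤ 2 * ((occ ψ).length * ψ.length)
    rw [hm]; nlinarith
  · show 2 * ((occ ψ).length * ψ.length) ≤ (gmat (verts (occ ψ) ψ.length
      (2 * ((occ ψ).length * ψ.length))) _).length
    generalize 2 * ((occ ψ).length * ψ.length) = L
    rw [gmat_length]
    have := (List.Nodup.subperm (l₁ := (List.range L).map fun i => ((4, 0, 1, i) : Pt))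
      (l₂ := verts (occ ψ) ψ.length L)
      (List.nodup_range.map fun a b h => by simpa using h) (fun x hx => by
        obtain ⟨i, hi, rfl⟩ := List.mem_map.1 hx
        simp only [List.mem_range] at hi
        simp [mem_verts, Valid, hO, conf, cl]; omega)).length_le
    simpa using this
  · refine SimpleGraph.Colorable.of_hom e.toHom ⟨SimpleGraph.Coloring.mk
      (fun x => if IsA x.1 then 0 else 1) fun {x y} h => ?_⟩
    rcases ((listGraph_adj _ _ _ _).1 h).2 with h | h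
    · have := bip _ x.2 _ y.2 h; simp [this.1, this.2]
    · have := bip _ y.2 _ x.2 h; simp [this.1, this.2]

theorem result : NPHard (Lang SAC) ∧
    NPHard (Lang fun I => SAC I ∧ (graphOf I.1).IsBipartite) :=
  ⟨(hard_sat.red red_pt fun φ => (red_correct φ).1).npHard,
    (hard_sat.red red_pt fun φ => by simpa [(red_correct φ).2] using (red_correct φ).1).npHard⟩

end Pool.Agent.Results.MP_cb63a5_lc.NPHard
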